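import Pool.Agent.P.MP_abfee5_ag.CT.All

/-! Degree 20 equations in second order theta constants for the cubic threefold locus. -/

namespace Pool.Agent.Results.MP_abfee5_ag.CubicBinomials

open Pool.Agent.P.MP_abfee5_ag Filter Topology MvPolynomial

theorem result (m : Ch) (hm : parity m = 1) :
    J m ≤ vanishingIdeal ℂ (cone (Loc m)) ∧
    ∃ τ₀ ∈ Loc m, ∃ p ∈ (J m).minimalPrimes,
      (∀ F, F ∈ p ↔ ∃ g, eval (Th τ₀) g ≠ 0 ∧ g * F ∈ J m) ∧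
      (∃ W₀ ∈ 𝓝 τ₀, ∀ W ∈ 𝓝 τ₀, W ⊆ W₀ → vanishingIdeal ℂ (cone (Loc m ∩ W)) = p) ∧
      (∀ W ∈ 𝓝 τ₀, ∀ᶠ x in 𝓝 (Th τ₀), x ∈ zeroLocus ℂ (J m) → x ∈ cone (Loc m ∩ W)) :=
  ⟨all_VAN.2 (all_PHI all_BASE) m hm,
    mainAll all_ENC all_TRN all_SYT all_SYG all_ORB
      (main0 all_ENC all_BRV all_BRG all_QQ all_T0 all_SYM all_XENC all_AENC all_QNZ all_MENC
        all_INV all_SURJ all_JAC all_VAN all_FINZ all_LOC (all_PHI all_BASE)) m hm⟩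

end Pool.Agent.Results.MP_abfee5_ag.CubicBinomials
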